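import Pool.Agent.Helper48.FFJ.Jac

/-! POINTWISE JACOBIAN (2): a one-sided pointwise inequality with equal means is an equality, typically. -/

set_option autoImplicit false

namespace Pool.Agent.Helper48.FFJ

open Finset Filter Topology Matrix Pool.Agent.Helper69.RK Pool.Agent.Helper31.EC Pool.Agent.Helper31.EC.Sp
open Pool.Agent.Helper40.EL Pool.Agent.Helper89.LX Pool.Agent.Helper3.LF Pool.Agent.Helper84.MT
open Pool.Agent.Helper4.FFR Pool.Agent.Helper89.RAT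
open Pool.Agent.Helper95.LF (PdM)
open Pool.Agent.Helper14.MC (gx vx vol_eq vx_UB vx_nonneg)

noncomputable section

/-- `f ≤ g + e` typically and the mean of `g` at most the mean of `f`: then `|f - g| ≤ e` typically -/
theorem typ_eq (T : Sp) (f g : ∀ k, (T.F k).Ω → ℝ) (C : ℝ)
    (hb : ∀ᶠ k in UF, ∀ ω, (T.F k).μ ω ≠ 0 → |f k ω| ≤ C ∧ |g k ω| ≤ C)
    (h : ∀ e : ℝ, 0 < e → Typ (S := T) (fun k ω => f k ω ≤ g k ω + e))
    (hm : ul (fun k => ∑ ω, (T.F k).μ ω * g k ω) ≤ ul (fun k => ∑ ω, (T.F k).μ ω * f k ω)) (e : ℝ) (he : 0 < e) :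
    Typ (S := T) (fun k ω => |f k ω - g k ω| ≤ e) := by
  have hU : ∀ u : ∀ k, (T.F k).Ω → ℝ, (∀ᶠ k in UF, ∀ ω, (T.F k).μ ω ≠ 0 → |u k ω| ≤ C) →
      UB (fun k => ∑ ω, (T.F k).μ ω * u k ω) := by
    intro u hu
    refine ⟨C, ?_⟩
    filter_upwards [hu] with k hk
    refine (Finset.abs_sum_le_sum_abs _ _).trans ?_
    have h6 : ∀ ω ∈ (Finset.univ : Finset (T.F k).Ω), |(T.F k).μ ω * u k ω| ≤ (T.F k).μ ω * C := by
      intro ω _
      rw [abs_mul, abs_of_nonneg ((T.F k).nn ω)]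
      by_cases hω : (T.F k).μ ω = 0
      · rw [hω, zero_mul, zero_mul]
      · exact mul_le_mul_of_nonneg_left (hk ω hω) ((T.F k).nn ω)
    have h7 : ∑ ω, (T.F k).μ ω = 1 := (T.F k).ms
    have h8 : ∑ ω, (T.F k).μ ω * C = C := by rw [← Finset.sum_mul, h7, one_mul]
    exact (Finset.sum_le_sum h6).trans (le_of_eq h8)
  have tf := ul_tendsto (hU f (by filter_upwards [hb] with k hk ω hω using (hk ω hω).1))
  have tg := ul_tendsto (hU g (by filter_upwards [hb] with k hk ω hω using (hk ω hω).2))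
  have tgf := tg.sub tf
  have hle : ul (fun k => ∑ ω, (T.F k).μ ω * g k ω) - ul (fun k => ∑ ω, (T.F k).μ ω * f k ω) ≤ 0 := by linarith
  have key : Typ (S := T) (fun k ω => g k ω - f k ω ≤ e) := by
    show Tendsto (fun k => (T.F k).pb (fun ω => ¬ g k ω - f k ω ≤ e)) UF (𝓝 0)
    rw [Metric.tendsto_nhds]
    intro ε hε
    have hδ : 0 < ε * e / 4 := by positivity
    have h1 : ∀ᶠ k in UF, ∑ ω, (T.F k).μ ω * g k ω - ∑ ω, (T.F k).μ ω * f k ω < ε * e / 4 :=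
      tgf.eventually (gt_mem_nhds (by linarith))
    have h2 : Tendsto (fun k => 2 * |C| * (T.F k).pb (fun ω => ¬ f k ω ≤ g k ω + ε * e / 4)) UF (𝓝 0) := by
      have h3 : Tendsto (fun k => (T.F k).pb (fun ω => ¬ f k ω ≤ g k ω + ε * e / 4)) UF (𝓝 0) := h _ hδ
      have h4 := h3.const_mul (2 * |C|)
      rwa [mul_zero] at h4
    filter_upwards [h1, h2.eventually (gt_mem_nhds hδ), hb] with k a b c
    have hp0 := (T.F k).pb_nonneg (fun ω => ¬ g k ω - f k ω ≤ e)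
    rw [Real.dist_eq, sub_zero, abs_of_nonneg hp0]
    have h7 : ∑ ω, (T.F k).μ ω * (ε * e / 4) = ε * e / 4 := by
      have hms : ∑ i, (T.F k).μ i = 1 := (T.F k).ms
      rw [← Finset.sum_mul, hms, one_mul]
    have h5 : e * (T.F k).pb (fun ω => ¬ g k ω - f k ω ≤ e) ≤
        (∑ ω, (T.F k).μ ω * g k ω - ∑ ω, (T.F k).μ ω * f k ω) + ∑ ω, (T.F k).μ ω * (ε * e / 4) +
          2 * |C| * (T.F k).pb (fun ω => ¬ f k ω ≤ g k ω + ε * e / 4) := by
      unfold FSp.pb mass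
      rw [← Finset.sum_sub_distrib, Finset.mul_sum, Finset.mul_sum, ← Finset.sum_add_distrib, ← Finset.sum_add_distrib]
      refine Finset.sum_le_sum fun ω _ => ?_
      by_cases hω : (T.F k).μ ω = 0
      · have r1 : ∀ E : (T.F k).Ω → Prop, res (T.F k).μ E ω = 0 := by
          intro E
          unfold res
          rw [hω]
          split_ifs <;> rfl
        rw [r1, r1, hω]
        simp
      · have hμ := (T.F k).nn ω
        obtain ⟨c1, c2⟩ := c ω hω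
        have hC0 : C ≤ |C| := le_abs_self C
        have hCn : 0 ≤ |C| := abs_nonneg C
        rw [abs_le] at c1 c2
        have hr : ∀ E : (T.F k).Ω → Prop, E ω → res (T.F k).μ E ω = (T.F k).μ ω := fun E hE => res_pos (T.F k).μ E ω hE
        have hr' : ∀ E : (T.F k).Ω → Prop, ¬ E ω → res (T.F k).μ E ω = 0 := by
          intro E hE
          unfold res
          rw [if_neg hE]
        by_cases h8 : f k ω ≤ g k ω + ε * e / 4
        · rw [hr' (fun ω => ¬ f k ω ≤ g k ω + ε * e / 4) (not_not.2 h8), mul_zero, add_zero]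
          by_cases h9 : g k ω - f k ω ≤ e
          · rw [hr' (fun ω => ¬ g k ω - f k ω ≤ e) (not_not.2 h9), mul_zero]
            nlinarith
          · rw [hr (fun ω => ¬ g k ω - f k ω ≤ e) h9]
            push Not at h9
            nlinarith
        · have h9 : g k ω - f k ω ≤ e := by
            push Not at h8
            linarith
          rw [hr (fun ω => ¬ f k ω ≤ g k ω + ε * e / 4) h8, hr' (fun ω => ¬ g k ω - f k ω ≤ e) (not_not.2 h9), mul_zero]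
          nlinarith
    rw [h7] at h5
    by_contra hcon
    have h6 := mul_le_mul_of_nonneg_left (not_lt.1 hcon) he.le
    linarith
  refine Typ.mono (S := T) (Typ.and (S := T) (h e he) key) (Eventually.of_forall fun k ω _ hh => ?_)
  rw [abs_le]
  constructor <;> linarith [hh.1, hh.2]

variable {S : Sp} {κ : Type} {M D : ℕ} {Q : S.VV M}

/-- the mean of the exponent of the determinant over a refinement -/
theorem mean_gx {x : ∀ k, FD (S.F k) (Mon M D)} {L : Lab S} (Rx : Rfn L (lb x)) (k : ℕ) :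
    ∑ w, (L k).T.μ w * gx Q k ((L k).p.π w) ((x k).g ((Rx.q k).π w)) = vx Q x k := by
  have h1 : ∑ w, (L k).T.μ w * gx Q k ((x k).l.p.π ((Rx.q k).π w)) ((x k).g ((Rx.q k).π w)) = vx Q x k :=
    sum_push (Rx.q k) (fun ω => gx Q k ((x k).l.p.π ω) ((x k).g ω))
  rw [← h1]
  refine Finset.sum_congr rfl fun w _ => ?_
  by_cases hw : (L k).T.μ w = 0
  · rw [hw, zero_mul, zero_mul]
  · have h2 : (x k).l.p.π ((Rx.q k).π w) = (L k).p.π w := Rx.hπ k w hw
    rw [h2]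

/-- the mean of the exponent of a direction over a refinement -/
theorem mean_xz {x : ∀ k, FD (S.F k) (Mon M D)} (z : Fin M) {L : Lab S} (Rx : Rfn L (lb x)) (k : ℕ) :
    ∑ w, (L k).T.μ w * xz Q z k ((L k).p.π w) ((x k).g ((Rx.q k).π w)) = zv Q z x k := by
  have h1 : ∑ w, (L k).T.μ w * xz Q z k ((x k).l.p.π ((Rx.q k).π w)) ((x k).g ((Rx.q k).π w)) = zv Q z x k :=
    sum_push (Rx.q k) (fun ω => xz Q z k ((x k).l.p.π ω) ((x k).g ω))
  rw [← h1]
  refine Finset.sum_congr rfl fun w _ => ?_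
  by_cases hw : (L k).T.μ w = 0
  · rw [hw, zero_mul, zero_mul]
  · have h2 : (x k).l.p.π ((Rx.q k).π w) = (L k).p.π w := Rx.hπ k w hw
    rw [h2]

/-- the exponents are bounded on the refinement -/
theorem jac_bd (P : ∀ j : Fin M, S.VV (j.val + 1)) {x : ∀ k, FD (S.F k) (Mon M D)} {y : ∀ (j : Fin M) k, FD (S.F k) (Mon (j.val + 1) D)}
    {L : Lab S} (Rx : Rfn L (lb x)) (Ry : ∀ j, Rfn L (lb (y j))) {C1 : ℝ} {C2 : Fin M → ℝ} (hC1 : 0 ≤ C1) (hC2 : ∀ j, 0 ≤ C2 j) (k : ℕ)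
    (a : ∀ ω, (x k).l.T.μ ω ≠ 0 → 0 ≤ gx Q k ((x k).l.p.π ω) ((x k).g ω) ∧ gx Q k ((x k).l.p.π ω) ((x k).g ω) ≤ C1)
    (b : ∀ j, ∀ ω, (y j k).l.T.μ ω ≠ 0 → 0 ≤ xz (P j) (Fin.last j.val) k ((y j k).l.p.π ω) ((y j k).g ω) ∧
      xz (P j) (Fin.last j.val) k ((y j k).l.p.π ω) ((y j k).g ω) ≤ C2 j) (w : (L k).T.Ω) (hw : (L k).T.μ w ≠ 0) :
    |∑ j : Fin M, xz (P j) (Fin.last j.val) k ((L k).p.π w) ((y j k).g (((Ry j).q k).π w))| ≤ C1 + ∑ j, C2 j ∧
      |gx Q k ((L k).p.π w) ((x k).g ((Rx.q k).π w))| ≤ C1 + ∑ j, C2 j := by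
  have s1 : 0 ≤ ∑ j, C2 j := Finset.sum_nonneg fun j _ => hC2 j
  constructor
  · have h3 : ∀ j, 0 ≤ xz (P j) (Fin.last j.val) k ((L k).p.π w) ((y j k).g (((Ry j).q k).π w)) ∧
        xz (P j) (Fin.last j.val) k ((L k).p.π w) ((y j k).g (((Ry j).q k).π w)) ≤ C2 j := by
      intro j
      have h4 := b j _ (((Ry j).q k).supp w hw)
      have h5 : (y j k).l.p.π (((Ry j).q k).π w) = (L k).p.π w := (Ry j).hπ k w hw
      rw [h5] at h4
      exact h4
    rw [abs_of_nonneg (Finset.sum_nonneg fun j _ => (h3 j).1)]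
    have := Finset.sum_le_sum (fun j (_ : j ∈ Finset.univ) => (h3 j).2)
    linarith
  · have h4 := a _ ((Rx.q k).supp w hw)
    have h5 : (x k).l.p.π ((Rx.q k).π w) = (L k).p.π w := Rx.hπ k w hw
    rw [h5] at h4
    rw [abs_of_nonneg h4.1]
    linarith [h4.2]

/-- the exponents of the flag forms are bounded, uniformly -/
theorem xz_bds {κ' : Fin M → Type} {B : ∀ j, κ' j → Part S} (P : ∀ j : Fin M, S.VV (j.val + 1))
    (y : ∀ (j : Fin M) k, FD (S.F k) (Mon (j.val + 1) D)) (hy : ∀ j, (gaq (P j) D).Adf (B j) (y j)) :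
    ∃ C2 : Fin M → ℝ, (∀ j, 0 ≤ C2 j) ∧ ∀ᶠ k in UF, ∀ j, ∀ ω, (y j k).l.T.μ ω ≠ 0 →
      0 ≤ xz (P j) (Fin.last j.val) k ((y j k).l.p.π ω) ((y j k).g ω) ∧
      xz (P j) (Fin.last j.val) k ((y j k).l.p.π ω) ((y j k).g ω) ≤ C2 j := by
  have h0 : ∀ j : Fin M, ∃ C : ℝ, 0 ≤ C ∧ ∀ᶠ k in UF, ∀ ω, (y j k).l.T.μ ω ≠ 0 →
      0 ≤ xz (P j) (Fin.last j.val) k ((y j k).l.p.π ω) ((y j k).g ω) ∧
      xz (P j) (Fin.last j.val) k ((y j k).l.p.π ω) ((y j k).g ω) ≤ C := by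
    intro j
    exact xz_bd (S := S) (M := j.val + 1) (D := D) (κ := κ' j) (A := B j) (Q := P j) (z := Fin.last j.val) (y := y j) (hy j)
  obtain ⟨C2, hC2⟩ := Classical.skolem.1 h0
  refine ⟨C2, fun j => (hC2 j).1, ?_⟩
  rw [Filter.eventually_all]
  exact fun j => (hC2 j).2

/-- (J3) THE SUM OF THE FLAG EXPONENTS IS THE EXPONENT OF THE DETERMINANT, typically, if the means are equal -/
theorem jac_eq [Finite κ] {A : κ → Part S} {κ' : Fin M → Type} {B : ∀ j, κ' j → Part S}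
    {x : ∀ k, FD (S.F k) (Mon M D)} (hx : (gaq Q D).Optf A x) (P : ∀ j : Fin M, S.VV (j.val + 1))
    (hP : ∀ j k ω a, (P j).v k ω a = Q.v k ω (Fin.castLE j.isLt a)) (y : ∀ (j : Fin M) k, FD (S.F k) (Mon (j.val + 1) D))
    (hy : ∀ j, (gaq (P j) D).Adf (B j) (y j)) {L : Lab S} (hL : L.DMf A) (Rx : Rfn L (lb x))
    (Ry : ∀ j, Rfn L (lb (y j)))
    (hm : ul (vx Q x) ≤ ul (fun k => ∑ w, (L k).T.μ w * ∑ j : Fin M, xz (P j) (Fin.last j.val) k ((L k).p.π w)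
      ((y j k).g (((Ry j).q k).π w)))) (e : ℝ) (he : 0 < e) :
    Typ (S := L.sp) (fun k (w : (L k).T.Ω) => |∑ j : Fin M, xz (P j) (Fin.last j.val) k ((L k).p.π w)
      ((y j k).g (((Ry j).q k).π w)) - gx Q k ((L k).p.π w) ((x k).g ((Rx.q k).π w))| ≤ e) := by
  obtain ⟨C1, hC1, hb1⟩ := gx_bd hx.1
  obtain ⟨C2, hC2, hb2'⟩ := xz_bds P y hy
  have e1 : (fun k => ∑ w, (L k).T.μ w * gx Q k ((L k).p.π w) ((x k).g ((Rx.q k).π w))) = vx Q x :=
    funext fun k => mean_gx Rx k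
  have hbd : ∀ᶠ k in UF, ∀ ω, (L.sp.F k).μ ω ≠ 0 → |∑ j : Fin M, xz (P j) (Fin.last j.val) k ((L k).p.π ω)
      ((y j k).g (((Ry j).q k).π ω))| ≤ C1 + ∑ j, C2 j ∧ |gx Q k ((L k).p.π ω) ((x k).g ((Rx.q k).π ω))| ≤ C1 + ∑ j, C2 j := by
    filter_upwards [hb1, hb2'] with k a b
    exact fun w hw => jac_bd P Rx Ry hC1 hC2 k a b w hw
  rw [← e1] at hm
  have hj := jac_le hx P hP y hy hL Rx Ry
  exact typ_eq L.sp (fun k (w : (L k).T.Ω) => ∑ j : Fin M, xz (P j) (Fin.last j.val) k ((L k).p.π w)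
      ((y j k).g (((Ry j).q k).π w))) (fun k (w : (L k).T.Ω) => gx Q k ((L k).p.π w) ((x k).g ((Rx.q k).π w)))
      (C1 + ∑ j, C2 j) hbd hj hm e he

end

end Pool.Agent.Helper48.FFJ
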