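import Pool.Agent.Helper95.LF.Det

/-! FLAG BOUND OF A DETERMINANT: if the form of `A` at the vectors supported on the coordinates `≥ j` is at least
`a j * (v j) ^ 2`, for all `j`, then `∏ a j ≤ det A`. -/

set_option autoImplicit false

namespace Pool.Agent.Helper48.FFJ

open Finset Matrix
open Pool.Agent.Helper95.LF (PdM)

/-- a positive semidefinite real matrix has a nonnegative determinant -/
theorem det_nn {n : ℕ} {B : Matrix (Fin n) (Fin n) ℝ} (hs : B.IsSymm) (h : ∀ v, 0 ≤ v ⬝ᵥ (B *ᵥ v)) : 0 ≤ B.det := by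
  have h1 : B.PosSemidef := by
    apply Matrix.PosSemidef.of_dotProduct_mulVec_nonneg
    · exact hs
    · intro x
      exact h x
  exact h1.det_nonneg

theorem det_corner {n : ℕ} {A : Matrix (Fin (n + 1)) (Fin (n + 1)) ℝ} (hs : A.IsSymm) {a : ℝ}
    (h : ∀ v, a * (v 0) ^ 2 ≤ v ⬝ᵥ (A *ᵥ v)) : a * (A.submatrix Fin.succ Fin.succ).det ≤ A.det := by
  classical
  set e : Fin (n + 1) → ℝ := Pi.single 0 1 with he
  set B : Matrix (Fin (n + 1)) (Fin (n + 1)) ℝ := A.updateRow 0 (A 0 + (-a) • e) with hB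
  have hBe : B = A - a • Matrix.vecMulVec e e := by
    ext i j
    rw [Matrix.sub_apply, Matrix.smul_apply, Matrix.vecMulVec_apply, smul_eq_mul]
    by_cases hi : i = 0
    · subst hi
      rw [hB, Matrix.updateRow_self, Pi.add_apply, Pi.smul_apply, he, Pi.single_eq_same, one_mul, smul_eq_mul]
      ring
    · rw [hB, Matrix.updateRow_ne hi, he, Pi.single_eq_of_ne hi, zero_mul, mul_zero, sub_zero]
  have h1 : 0 ≤ B.det := by
    apply det_nn
    · rw [hBe]
      unfold Matrix.IsSymm
      rw [Matrix.transpose_sub, hs.eq, Matrix.transpose_smul, Matrix.transpose_vecMulVec]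
    · intro v
      have h2 := h v
      have h3 : v ⬝ᵥ (B *ᵥ v) = v ⬝ᵥ (A *ᵥ v) - a * (v 0) ^ 2 := by
        rw [hBe, Matrix.sub_mulVec, dotProduct_sub, Matrix.smul_mulVec, Matrix.vecMulVec_mulVec, dotProduct_smul]
        have h4 : e ⬝ᵥ v = v 0 := by rw [he, single_dotProduct, one_mul]
        have h5 : v ⬝ᵥ e = v 0 := by rw [he, dotProduct_single, mul_one]
        rw [h4]
        have h6 : v ⬝ᵥ (MulOpposite.op (v 0) • e) = v 0 * v 0 := by
          rw [dotProduct_smul, h5]
          rfl
        rw [h6, smul_eq_mul]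
        ring
      rw [h3]
      linarith
  have h2 : B.det = A.det - a * (A.submatrix Fin.succ Fin.succ).det := by
    rw [hB, Matrix.det_updateRow_add, Matrix.det_updateRow_smul, Matrix.updateRow_eq_self, neg_mul, ← sub_eq_add_neg]
    congr 2
    rw [he, ← Matrix.adjugate_apply, Matrix.adjugate_fin_succ_eq_det_submatrix]
    simp [Fin.succAbove_zero]
  linarith

/-- FLAG BOUND -/
theorem det_flag : ∀ {n : ℕ} {A : Matrix (Fin n) (Fin n) ℝ}, A.IsSymm → ∀ {a : Fin n → ℝ}, (∀ j, 0 ≤ a j) →
    (∀ (j : Fin n) (v : Fin n → ℝ), (∀ i, i < j → v i = 0) → a j * (v j) ^ 2 ≤ v ⬝ᵥ (A *ᵥ v)) → ∏ j, a j ≤ A.det := by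
  intro n
  induction n with
  | zero =>
    intro A _ a _ _
    rw [Finset.univ_eq_empty, Finset.prod_empty, Matrix.det_isEmpty]
  | succ n ih =>
    intro A hs a ha h
    rw [Fin.prod_univ_succ]
    have h1 : ∏ j : Fin n, a j.succ ≤ (A.submatrix Fin.succ Fin.succ).det := by
      apply ih
      · unfold Matrix.IsSymm
        rw [Matrix.transpose_submatrix, hs.eq]
      · exact fun j => ha _
      · intro j v hv
        have h2 := h j.succ (Fin.cons 0 v) (by
          intro i
          refine Fin.cases (fun _ => rfl) (fun i' hi => ?_) i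
          rw [Fin.cons_succ]
          exact hv i' (Fin.succ_lt_succ_iff.1 hi))
        have h3 : (Fin.cons 0 v : Fin (n + 1) → ℝ) ⬝ᵥ (A *ᵥ (Fin.cons 0 v : Fin (n + 1) → ℝ)) =
            v ⬝ᵥ (A.submatrix Fin.succ Fin.succ *ᵥ v) := by
          unfold dotProduct
          rw [Fin.sum_univ_succ, Fin.cons_zero, zero_mul, zero_add]
          refine Finset.sum_congr rfl fun i _ => ?_
          rw [Fin.cons_succ]
          congr 1
          unfold Matrix.mulVec dotProduct
          rw [Fin.sum_univ_succ, Fin.cons_zero, mul_zero, zero_add]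
          refine Finset.sum_congr rfl fun i' _ => ?_
          rw [Fin.cons_succ]
          rfl
        rw [h3, Fin.cons_succ] at h2
        exact h2
    have h2 := det_corner hs (h 0 · (fun i hi => absurd hi (Fin.not_lt_zero i)))
    exact (mul_le_mul_of_nonneg_left h1 (ha 0)).trans h2

end Pool.Agent.Helper48.FFJ
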