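import Pool.Agent.Helper48.FFJ.Det
import Pool.Agent.Helper4.FFR.Pr
import Pool.Agent.Helper63.MT.Imu

/-! POINTWISE JACOBIAN OF FLAG ROWS: over a common refinement of the labels, the optimal form of a system dominates the
forms of the projections to the coordinates `≤ j`; the sum of the exponents of the directions `j` of these forms is at most
the exponent of the determinant, and equal to it typically if the means are equal. -/

set_option autoImplicit false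

namespace Pool.Agent.Helper48.FFJ

open Finset Filter Topology Matrix Pool.Agent.Helper69.RK Pool.Agent.Helper31.EC Pool.Agent.Helper31.EC.Sp
open Pool.Agent.Helper40.EL Pool.Agent.Helper89.LX Pool.Agent.Helper3.LF Pool.Agent.Helper84.MT
open Pool.Agent.Helper4.FFR Pool.Agent.Helper89.RAT
open Pool.Agent.Helper95.LF (PdM)
open Pool.Agent.Helper14.MC (gx vx vol_eq vx_UB vx_nonneg)
open Pool.Agent.Helper26.MZ
open Pool.Agent.Helper7.GZ

noncomputable section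

variable {S : Sp} {κ κ' : Type}

/-! ### (J1) -/

section dom

variable {ι : Type} [Fintype ι] [DecidableEq ι] {Φ : Gau S ι}

/-- (J1) THE OPTIMAL FORM DOMINATES AN ADMISSIBLE FORM over every common refinement of the two labels -/
theorem dom_on [Finite κ] {A : κ → Part S} {B : κ' → Part S} {x y : ∀ k, FD (S.F k) ι} (hx : Φ.Optf A x)
    (hy : Φ.Adf B y) {L : Lab S} (hL : L.DMf A) (Rx : Rfn L (lb x)) (Ry : Rfn L (lb y)) (e : ℝ) (he : 0 < e) :
    Typ (S := L.sp) (fun k (w : (L k).T.Ω) => ∀ v, qf ((y k).g ((Ry.q k).π w)) v ≤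
      2 ^ (e * (S.F k).n) * qf ((x k).g ((Rx.q k).π w)) v) := by
  set z : ∀ k, FD (S.F k) ι := fun k =>
    ⟨L k, fun ω => (x k).g ((Rx.q k).π ω), fun ω => (y k).g ((Ry.q k).π ω), fun ω ω' a b c d =>
      ⟨((x k).meas _ _ ((Rx.q k).supp ω a) ((Rx.q k).supp ω' b) (Rx.hV k ω ω' a b d c) (((Rx.q k).hZ ω ω' a b).1 d)).1,
        ((y k).meas _ _ ((Ry.q k).supp ω a) ((Ry.q k).supp ω' b) (Ry.hV k ω ω' a b d c)
          (((Ry.q k).hZ ω ω' a b).1 d)).1⟩⟩ with hz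
  have hF : Φ.Fm z := by
    intro η hη
    filter_upwards [hx.1.fm η hη, hy.fm η hη] with k hk hk'
    refine ⟨fun ω hω => ⟨(hk.1 _ ((Rx.q k).supp ω hω)).1, (hk'.1 _ ((Ry.q k).supp ω hω)).1⟩, ?_, ?_⟩
    · have h1 := pb_push (Rx.q k) (fun ω => ¬ Φ.φ k ((x k).l.p.π ω) ((x k).g ω) ≤ 2 ^ (η * (S.F k).n))
      refine le_trans (le_trans (FSp.pb_mono _ ?_) h1.le) hk.2.1
      intro ω hω h2 h3
      apply h2
      have h4 : (lb x k).p.π ((Rx.q k).π ω) = (L k).p.π ω := Rx.hπ k ω hω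
      have h5 : Φ.φ k ((lb x k).p.π ((Rx.q k).π ω)) ((x k).g ((Rx.q k).π ω)) ≤ 2 ^ (η * (S.F k).n) := h3
      rw [h4] at h5
      exact h5
    · have h1 := pb_push (Ry.q k) (fun ω => ¬ Φ.φ k ((y k).l.p.π ω) ((y k).g ω) ≤ 2 ^ (η * (S.F k).n))
      refine le_trans (le_trans (FSp.pb_mono _ ?_) h1.le) hk'.2.1
      intro ω hω h2 h3
      apply h2
      have h4 : (lb y k).p.π ((Ry.q k).π ω) = (L k).p.π ω := Ry.hπ k ω hω
      have h5 : Φ.φ k ((lb y k).p.π ((Ry.q k).π ω)) ((y k).g ((Ry.q k).π ω)) ≤ 2 ^ (η * (S.F k).n) := h3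
      rw [h4] at h5
      exact h5
  have hA : Φ.Adf A z := Gau.Adf_iff.2 ⟨hL, hF⟩
  refine Gau.opt_nearf Φ hA (fun y' hy' => ?_) e he
  have h1 : (fun k => (z k).sc / (S.F k).n) = fun k => (x k).sc / (S.F k).n := by
    funext k
    have h2 : (z k).sc = (x k).sc := sum_push (Rx.q k) (fun ω => Real.logb 2 ((x k).g ω).det)
    rw [h2]
  rw [h1]
  exact hx.2 y' hy'

end dom

/-! ### (J2) -/

variable {M N D : ℕ} {Q : S.VV M}

/-- gradients of the forms of the projections, over a common refinement -/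
theorem pr_on [Finite κ] {A : κ → Part S} {B : κ' → Part S} {x : ∀ k, FD (S.F k) (Mon M D)}
    (hx : (gaq Q D).Optf A x) (hN : N ≤ M) {P : S.VV N} (hP : ∀ k ω a, P.v k ω a = Q.v k ω (Fin.castLE hN a))
    {y : ∀ k, FD (S.F k) (Mon N D)} (hy : (gaq P D).Adf B y) {L : Lab S} (hL : L.DMf A) (Rx : Rfn L (lb x))
    (Ry : Rfn L (lb y)) (e : ℝ) (he : 0 < e) :
    Typ (S := L.sp) (fun k (w : (L k).T.Ω) => ∀ v : Fin M → ℝ,
      (fun i => v (Fin.castLE hN i)) ⬝ᵥ (Jq (S.dl 1 k) ((y k).g ((Ry.q k).π w)) (P.v k ((L k).p.π w)) *ᵥ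
        fun i => v (Fin.castLE hN i)) ≤
      2 ^ (e * (S.F k).n) * (v ⬝ᵥ (Jq (S.dl 1 k) ((x k).g ((Rx.q k).π w)) (Q.v k ((L k).p.π w)) *ᵥ v))) := by
  have h0 : (gaq Q D).Adf (fun i : Fin 0 => (i.elim0 : Part S)) (pFD Q hN y) := pFD_adf hP hy (fun i => i.elim0)
  have h1 := dom_on hx h0 hL Rx (show Rfn L (lb (pFD Q hN y)) from Ry) e he
  have h2 := typ_fpj (l := lb y) (l' := L) Ry.q (pFD_typ hP hy)
  refine Typ.mono (S := L.sp) (Typ.and (S := L.sp) h1 h2) ?_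
  filter_upwards [hy 1 one_pos] with k hk
  intro (w : (L k).T.Ω) hw hh v
  obtain ⟨g1, g2⟩ := hh
  have hB := (hk.2.1 _ ((Ry.q k).supp w hw)).1
  have g3 : ∀ v, qf (pm hN y k ((Ry.q k).π w)) v ≤ 2 ^ (e * (S.F k).n) * qf ((x k).g ((Rx.q k).π w)) v := by
    intro v
    have g4 : (pFD Q hN y k).g ((Ry.q k).π w) = pm hN y k ((Ry.q k).π w) := g2
    rw [← g4]
    exact g1 v
  have e1 : P.v k ((L k).p.π w) = fun i => Q.v k ((L k).p.π w) (Fin.castLE hN i) := funext fun a => hP k _ a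
  rw [e1]
  refine (Jq_cpj hN hB.psd.2 (S.dl 1 k) (Q.v k ((L k).p.π w)) v).trans ?_
  rw [Jq_qf, Jq_qf, Finset.mul_sum]
  refine Finset.sum_le_sum fun j _ => ?_
  refine le_trans ?_ (g3 _)
  have e2 : pm hN y k ((Ry.q k).π w) = 1 + sbf D (cpj hN) (S.dl 1 k) ((y k).g ((Ry.q k).π w)) := rfl
  rw [e2, qf_add, qf_one']
  have h5 := dot_self_nonneg (Wq M D (nodp D (Q.v k ((L k).p.π w)) (S.dl 1 k) j) *ᵥ v)
  show _ ≤ _ + qf (sbf D (cpj hN) (S.dl 1 k) ((y k).g ((Ry.q k).π w))) _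
  unfold qf
  linarith

/-- the deterministic inequality of exponents -/
theorem flag_pt {M : ℕ} {J : Matrix (Fin M) (Fin M) ℝ} (hs : J.IsSymm) {q : Fin M → ℝ}
    (hq : ∀ j, 0 ≤ q j) {t : ℝ} (ht : 0 ≤ t)
    (h : ∀ (j : Fin M) (v : Fin M → ℝ), (∀ i, i < j → v i = 0) → (v j) ^ 2 * q j ≤ 2 ^ t * (v ⬝ᵥ (J *ᵥ v))) :
    ∑ j, Real.logb 2 (1 + q j) ≤ Real.logb 2 ((1 + J).det) + M * t := by
  have h2t : (0 : ℝ) < 2 ^ t := by positivity
  have h1t : (1 : ℝ) ≤ 2 ^ t := Real.one_le_rpow (by norm_num) ht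
  have hpos : ∀ j, 0 < (1 + q j) / 2 ^ t := fun j => div_pos (by linarith [hq j]) h2t
  have h1 : ∏ j, ((1 + q j) / 2 ^ t) ≤ (1 + J).det := by
    apply det_flag
    · exact Matrix.isSymm_one.add hs
    · exact fun j => (hpos j).le
    · intro j v hv
      have h2 := h j v hv
      rw [Matrix.add_mulVec, Matrix.one_mulVec, dotProduct_add, div_mul_eq_mul_div, div_le_iff₀ h2t]
      have h3 : (v j) ^ 2 ≤ v ⬝ᵥ v := by
        unfold dotProduct
        rw [pow_two]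
        exact Finset.single_le_sum (f := fun i => v i * v i) (fun i _ => mul_self_nonneg _) (Finset.mem_univ j)
      have h4 : v ⬝ᵥ v ≤ v ⬝ᵥ v * 2 ^ t := le_mul_of_one_le_right ((sq_nonneg _).trans h3) h1t
      linarith
  have h2 := Real.logb_le_logb_of_le (b := 2) (by norm_num) (Finset.prod_pos fun j _ => hpos j) h1
  rw [Real.logb_prod (s := Finset.univ) (f := fun j => (1 + q j) / 2 ^ t) (fun j _ => (hpos j).ne')] at h2
  have h3 : ∀ j, Real.logb 2 ((1 + q j) / 2 ^ t) = Real.logb 2 (1 + q j) - t := by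
    intro j
    rw [Real.logb_div (by linarith [hq j]) h2t.ne', Real.logb_rpow (by norm_num) (by norm_num)]
  simp only [h3] at h2
  rw [Finset.sum_sub_distrib, Finset.sum_const, Finset.card_univ, Fintype.card_fin, nsmul_eq_mul] at h2
  linarith

/-- the inequality at one point -/
theorem jac_pt (k : ℕ) (ω : (S.F k).Ω) {A : Matrix (Mon M D) (Mon M D) ℝ} (hA : A.IsSymm) (P : ∀ j : Fin M, S.VV (j.val + 1))
    (B : ∀ j : Fin M, Matrix (Mon (j.val + 1) D) (Mon (j.val + 1) D) ℝ) (hB : ∀ j x, 0 ≤ x ⬝ᵥ (B j *ᵥ x)) {t : ℝ}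
    (ht : 0 ≤ t) (h : ∀ (j : Fin M) (v : Fin M → ℝ),
      (fun i => v (Fin.castLE j.isLt i)) ⬝ᵥ (Jq (S.dl 1 k) (B j) ((P j).v k ω) *ᵥ fun i => v (Fin.castLE j.isLt i)) ≤
      2 ^ t * (v ⬝ᵥ (Jq (S.dl 1 k) A (Q.v k ω) *ᵥ v))) :
    ∑ j : Fin M, xz (P j) (Fin.last j.val) k ω (B j) ≤ gx Q k ω A + M * t / (2 * (S.F k).n) := by
  have hn := (S.F k).pos
  have h2 := flag_pt (J := Jq (S.dl 1 k) A (Q.v k ω)) (Jq_symm _ hA _)
    (q := fun j => Jq (S.dl 1 k) (B j) ((P j).v k ω) (Fin.last j.val) (Fin.last j.val)) (fun j => by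
      have h3 := Jq_nonneg (S.dl 1 k) (hB j) ((P j).v k ω) (Pi.single (Fin.last j.val) 1)
      rw [single_dv] at h3
      exact h3) ht (by
      intro j v hv
      have h3 := h j v
      refine le_trans (le_of_eq ?_) h3
      have h4 : (fun i : Fin (j.val + 1) => v (Fin.castLE j.isLt i)) =
          v j • (Pi.single (Fin.last j.val) 1 : Fin (j.val + 1) → ℝ) := by
        funext i
        rcases (Fin.le_last i).lt_or_eq with h5 | h5
        · rw [Pi.smul_apply, Pi.single_eq_of_ne h5.ne, smul_zero]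
          apply hv
          rw [Fin.lt_def] at h5 ⊢
          exact h5
        · rw [h5, Pi.smul_apply, Pi.single_eq_same, smul_eq_mul, mul_one]
          congr 1
      rw [h4, Matrix.mulVec_smul, smul_dotProduct, dotProduct_smul, single_dv, smul_eq_mul, smul_eq_mul]
      ring)
  have h3 : (∑ j : Fin M, xz (P j) (Fin.last j.val) k ω (B j)) =
      (∑ j : Fin M, Real.logb 2 (1 + Jq (S.dl 1 k) (B j) ((P j).v k ω) (Fin.last j.val) (Fin.last j.val))) /
        (2 * (S.F k).n) := by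
    rw [Finset.sum_div]
    rfl
  have h4 : gx Q k ω A = Real.logb 2 ((1 + Jq (S.dl 1 k) A (Q.v k ω)).det) / (2 * (S.F k).n) := rfl
  rw [h3, h4, ← add_div]
  exact div_le_div_of_nonneg_right h2 (by positivity)

/-- (J2) THE SUM OF THE FLAG EXPONENTS is at most the exponent of the determinant -/
theorem jac_le [Finite κ] {A : κ → Part S} {κ' : Fin M → Type} {B : ∀ j, κ' j → Part S}
    {x : ∀ k, FD (S.F k) (Mon M D)} (hx : (gaq Q D).Optf A x) (P : ∀ j : Fin M, S.VV (j.val + 1))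
    (hP : ∀ j k ω a, (P j).v k ω a = Q.v k ω (Fin.castLE j.isLt a)) (y : ∀ (j : Fin M) k, FD (S.F k) (Mon (j.val + 1) D))
    (hy : ∀ j, (gaq (P j) D).Adf (B j) (y j)) {L : Lab S} (hL : L.DMf A) (Rx : Rfn L (lb x))
    (Ry : ∀ j, Rfn L (lb (y j))) (e : ℝ) (he : 0 < e) :
    Typ (S := L.sp) (fun k (w : (L k).T.Ω) => ∑ j : Fin M, xz (P j) (Fin.last j.val) k ((L k).p.π w)
      ((y j k).g (((Ry j).q k).π w)) ≤ gx Q k ((L k).p.π w) ((x k).g ((Rx.q k).π w)) + e) := by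
  set e' : ℝ := 2 * e / (M + 1) with he'
  have he0 : 0 < e' := by positivity
  have h0 : ∀ j : Fin M, Typ (S := L.sp) (fun k (w : (L k).T.Ω) => ∀ v : Fin M → ℝ,
      (fun i => v (Fin.castLE j.isLt i)) ⬝ᵥ (Jq (S.dl 1 k) ((y j k).g (((Ry j).q k).π w)) ((P j).v k ((L k).p.π w)) *ᵥ
        fun i => v (Fin.castLE j.isLt i)) ≤
      2 ^ (e' * (S.F k).n) * (v ⬝ᵥ (Jq (S.dl 1 k) ((x k).g ((Rx.q k).π w)) (Q.v k ((L k).p.π w)) *ᵥ v))) :=
    fun j => pr_on hx (N := j.val + 1) j.isLt (hP j) (hy j) hL Rx (Ry j) e' he0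
  have h1 := Pool.Agent.Helper63.MT.typ_all (S := L.sp) h0
  have hyk : ∀ᶠ k in UF, ∀ j, ∀ ω, (y j k).l.T.μ ω ≠ 0 → ∀ x, 0 ≤ x ⬝ᵥ ((y j k).g ω *ᵥ x) := by
    rw [Filter.eventually_all]
    intro j
    filter_upwards [hy j 1 one_pos] with k hk ω hω
    exact (hk.2.1 ω hω).1.psd.2
  refine Typ.mono (S := L.sp) h1 ?_
  filter_upwards [hx.1 1 one_pos, hyk] with k hk hyk
  intro (w : (L k).T.Ω) hw hh
  have hn := (S.F k).pos
  have hA := (hk.2.1 _ ((Rx.q k).supp w hw)).1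
  have h2 := jac_pt (Q := Q) k ((L k).p.π w) hA.1 P (fun j => (y j k).g (((Ry j).q k).π w))
    (fun j => hyk j _ (((Ry j).q k).supp w hw)) (t := e' * (S.F k).n) (by positivity) hh
  refine h2.trans (add_le_add le_rfl ?_)
  rw [div_le_iff₀ (by positivity)]
  have h6 : (M : ℝ) * e' ≤ e * 2 := by
    rw [he', mul_div_assoc', div_le_iff₀ (by positivity)]
    nlinarith
  calc (M : ℝ) * (e' * (S.F k).n) = (M * e') * (S.F k).n := by ring
    _ ≤ (e * 2) * (S.F k).n := mul_le_mul_of_nonneg_right h6 hn.le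
    _ = _ := by ring

end

end Pool.Agent.Helper48.FFJ
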